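import Pool.Agent.T9h11.HB8

set_option autoImplicit false

namespace Pool.Agent.Results.MP_dd2a7c_co.HilbertianBalls

open Finset
open scoped Classical Pointwise

universe u v

/-- Centred convex coset progressions, as in the problem. -/
structure CCP (Γ : Type u) [AddCommGroup Γ] where
  /-- the dimension -/
  d : ℕ
  /-- the convex body -/
  B : Set (Fin d → ℝ)
  convex : Convex ℝ B
  compact : IsCompact B
  interior_nonempty : (interior B).Nonempty
  symm : ∀ x ∈ B, -x ∈ B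
  x₀ : Γ
  ψ : (Fin d → ℤ) →+ Γ
  /-- the finite subgroup -/
  H : AddSubgroup Γ
  finite : Finite H

/-- The volume: the number of integer points of the body times the order of the subgroup. -/
noncomputable def CCP.vol {Γ : Type u} [AddCommGroup Γ] (Q : CCP Γ) : ℕ :=
  {x : Fin Q.d → ℤ | (fun i => (x i : ℝ)) ∈ Q.B}.ncard * Nat.card Q.H

/-- The underlying set. -/
def CCP.carrier {Γ : Type u} [AddCommGroup Γ] (Q : CCP Γ) : Set Γ :=
  {y | ∃ x : Fin Q.d → ℤ, (fun i => (x i : ℝ)) ∈ Q.B ∧ ∃ h ∈ Q.H, y = Q.x₀ + Q.ψ x + h}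

/-- `b` is a map to a real inner product space (of any dimension) for which the (pseudo)metric
`‖b x - b y‖` is translation invariant: an invariant Hilbertian metric. -/
def Invariant {Γ : Type u} [AddCommGroup Γ] {V : Type v} [NormedAddCommGroup V] (b : Γ → V) : Prop :=
  ∀ x y z, ‖b (x + z) - b (y + z)‖ = ‖b x - b y‖

/-- The ball of radius `r` centred at `0` of this metric. -/
def ball {Γ : Type u} [AddCommGroup Γ] {V : Type v} [NormedAddCommGroup V] (b : Γ → V) (r : ℝ) :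
    Set Γ :=
  {x | ‖b x - b 0‖ ≤ r}

/-- the progression built from the data of the library theorems -/
def mk {Γ : Type u} [AddCommGroup Γ] {d : ℕ} {B : Set (Fin d → ℝ)}
    (hB : Pool.Agent.Y806.DF.Body B) (ψ : (Fin d → ℤ) →+ Γ) (H : AddSubgroup Γ) (hH : Finite H)
    (g : Γ) : CCP Γ :=
  ⟨d, B, hB.1, hB.2.1, hB.2.2.1, hB.2.2.2, g, ψ, H, hH⟩

/-- **The polynomial Freiman-Ruzsa conjecture (Q1) for sets controlled by a Hilbertian metric.**
There is an absolute constant `C` such that the following holds for every abelian group `Γ` and every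
invariant Hilbertian metric `‖b x - b y‖` on `Γ`, of any dimension. Let `A` be a finite nonempty
subset of `Γ` with `|A + A| ≤ K |A|`, such that some ball `x₀ + B(R)` contains at least `|A| / K`
elements of `A`, and such that the balls `B(n R)` are finite with `|B(n R)| ≤ K ^ (n ^ 2) |A|` for all
`n ≥ 1`. Then `A` is covered by `(2 K) ^ C` translates of a centred convex coset progression of
dimension at most `C log (2 K)` and volume at most `|A|`. -/
theorem result : ∃ C : ℝ, ∀ (Γ : Type u) [AddCommGroup Γ] (V : Type v) [NormedAddCommGroup V]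
    [InnerProductSpace ℝ V] (b : Γ → V), Invariant b →
    ∀ (A : Finset Γ) (x₀ : Γ) (K R : ℝ), A.Nonempty → 1 ≤ K → 0 < R →
      ((A + A).card : ℝ) ≤ K * A.card →
      (A.card : ℝ) ≤ K * (A.filter fun a => a - x₀ ∈ ball b R).card →
      (∀ n : ℕ, 1 ≤ n → (ball b (n * R)).Finite ∧
        ((ball b (n * R)).ncard : ℝ) ≤ K ^ n ^ 2 * A.card) →
      ∃ (Q : CCP Γ) (T : Finset Γ), (Q.d : ℝ) ≤ C * Real.log (2 * K) ∧ Q.vol ≤ A.card ∧
        (T.card : ℝ) ≤ (2 * K) ^ C ∧ ∀ a ∈ A, ∃ t ∈ T, ∃ y ∈ Q.carrier, a = t + y := by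
  refine ⟨10 ^ 20, ?_⟩
  intro Γ _ V _ _ b hb A x₀ K R hA hK hR hAA hAR hg
  have hl : 0 ≤ Real.log (2 * K) := Real.log_nonneg (by linarith)
  obtain ⟨n, B, ψ, H, T, hn, hB, hH, hvol, hT, hcov⟩ := T9h11.HB.hb_ctrl hb hR hK hA x₀ (by
    refine hAR.trans (le_of_eq ?_)
    congr 3
    refine Finset.filter_congr fun a _ => ?_
    show ‖b (a - x₀) - b 0‖ ≤ R ↔ _
    rw [T9h11.HB.nm_sub hb]) hAA hg
  refine ⟨mk hB ψ H hH 0, T, ?_, hvol, ?_, ?_⟩
  · show (n : ℝ) ≤ _
    linarith
  · refine hT.trans (le_of_eq ?_)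
    rw [Real.rpow_def_of_pos (by linarith), mul_comm (Real.log (2 * K))]
  · intro a ha
    obtain ⟨t, ht, w, hw, h, hh, he⟩ := hcov a ha
    refine ⟨t, ht, 0 + ψ w + h, ⟨w, hw, h, hh, rfl⟩, ?_⟩
    rw [he]
    abel

/-- The case of the balls themselves. -/
theorem balls : ∃ C : ℝ, ∀ (Γ : Type u) [AddCommGroup Γ] (V : Type v) [NormedAddCommGroup V]
    [InnerProductSpace ℝ V] (b : Γ → V), Invariant b → ∀ K R : ℝ, 1 ≤ K → 0 < R →
      (∀ n : ℕ, 1 ≤ n → (ball b (n * R)).Finite ∧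
        ((ball b (n * R)).ncard : ℝ) ≤ K ^ n ^ 2 * (ball b R).ncard) →
      ∃ (Q : CCP Γ) (T : Finset Γ), (Q.d : ℝ) ≤ C * Real.log (2 * K) ∧
        Q.vol ≤ (ball b R).ncard ∧ (T.card : ℝ) ≤ (2 * K) ^ C ∧
        ∀ a ∈ ball b R, ∃ t ∈ T, ∃ y ∈ Q.carrier, a = t + y := by
  obtain ⟨C, hC⟩ := result.{u, v}
  refine ⟨4 * max C 0, ?_⟩
  intro Γ _ V _ _ b hb K R hK hR hg
  have h1 := hg 1 le_rfl
  rw [Nat.cast_one, one_mul] at h1
  set A := h1.1.toFinset with hA
  have hAm : ∀ x, x ∈ A ↔ x ∈ ball b R := fun x => by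
    rw [hA, Set.Finite.mem_toFinset]
  have hAn : (ball b R).ncard = A.card := Set.ncard_eq_toFinset_card _ h1.1
  have hAne : A.Nonempty := ⟨0, by
    rw [hAm]
    show ‖b 0 - b 0‖ ≤ R
    rw [sub_self, norm_zero]; exact hR.le⟩
  have hK4 : 1 ≤ K ^ 4 := one_le_pow₀ hK
  have hKK : K ≤ K ^ 4 := le_self_pow₀ hK (by norm_num)
  obtain ⟨Q, T, hd, hv, hT, hcov⟩ := hC Γ V b hb A 0 (K ^ 4) R hAne hK4 hR (by
      have h2 := hg 2 (by norm_num)
      have h3 : ((A + A).card : ℝ) ≤ (ball b (((2 : ℕ) : ℝ) * R)).ncard := by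
        have h4 : (A + A).card ≤ (ball b (((2 : ℕ) : ℝ) * R)).ncard := by
          rw [← Set.ncard_coe_finset]
          refine Set.ncard_le_ncard ?_ h2.1
          intro x hx
          obtain ⟨y, hy, z, hz, rfl⟩ := Finset.mem_add.1 (Finset.mem_coe.1 hx)
          show ‖b (y + z) - b 0‖ ≤ ((2 : ℕ) : ℝ) * R
          have h5 := T9h11.HB.nm_add hb y z
          have h6 : ‖b y - b 0‖ ≤ R := (hAm y).1 hy
          have h7 : ‖b z - b 0‖ ≤ R := (hAm z).1 hz
          push_cast
          linarith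
        exact_mod_cast h4
      refine h3.trans (h2.2.trans (le_of_eq ?_))
      rw [hAn]
      norm_num) (by
      have h2 : (A.filter fun a => a - 0 ∈ ball b R) = A := by
        refine Finset.filter_true_of_mem fun a ha => ?_
        rw [sub_zero]
        exact (hAm a).1 ha
      rw [h2]
      have h3 : (0 : ℝ) ≤ A.card := Nat.cast_nonneg _
      nlinarith) (by
      intro n hn
      refine ⟨(hg n hn).1, (hg n hn).2.trans ?_⟩
      rw [hAn]
      refine mul_le_mul_of_nonneg_right ?_ (Nat.cast_nonneg _)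
      exact pow_le_pow_left₀ (by linarith) hKK _)
  have hlog : Real.log (2 * K ^ 4) ≤ 4 * Real.log (2 * K) := by
    have h2 : 4 * Real.log (2 * K) = Real.log ((2 * K) ^ 4) := by
      rw [Real.log_pow]; norm_num
    rw [h2]
    apply Real.log_le_log (by positivity)
    rw [mul_pow]
    have : (0 : ℝ) ≤ K ^ 4 := by positivity
    linarith
  have hlog1 : 0 ≤ Real.log (2 * K ^ 4) := Real.log_nonneg (by linarith)
  have hlog0 : 0 ≤ Real.log (2 * K) := Real.log_nonneg (by linarith)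
  have hbound : C * Real.log (2 * K ^ 4) ≤ 4 * max C 0 * Real.log (2 * K) := by
    calc C * Real.log (2 * K ^ 4) ≤ max C 0 * Real.log (2 * K ^ 4) :=
          mul_le_mul_of_nonneg_right (le_max_left _ _) hlog1
      _ ≤ max C 0 * (4 * Real.log (2 * K)) :=
          mul_le_mul_of_nonneg_left hlog (le_max_right _ _)
      _ = _ := by ring
  refine ⟨Q, T, hd.trans hbound, by rw [hAn]; exact hv, hT.trans ?_,
    fun a ha => hcov a ((hAm a).2 ha)⟩
  rw [Real.rpow_def_of_pos (by positivity), Real.rpow_def_of_pos (by positivity)]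
  apply Real.exp_le_exp.2
  linarith

end Pool.Agent.Results.MP_dd2a7c_co.HilbertianBalls
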