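import Pool.Agent.T9h11.GP7

set_option autoImplicit false

namespace Pool.Agent.Results.MP_dd2a7c_co.NonproperProgressions

/-- The conclusion of Q1, with constants exponential in the rank, for sets which are covered by few
translates of a coset progression that need not be proper. Let `S ⊆ ℤ ^ n` be the set of the integer
points of a box `|z i| ≤ N i` or of an ellipsoid `‖L z‖ ≤ 1`, let `φ : ℤ ^ n → Γ` be any homomorphism
to an abelian group and `H₀` a finite subgroup of `Γ`. If `|φ(S) + H₀| ≤ κ |A|` (cardinality of the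
image, not volume) and `A` is covered by the translates of `φ(S) + H₀` by the elements of `X`, then `A`
is covered by `exp (880 n) κ |X|` translates of a centred convex coset progression of dimension at
most `n` and volume at most `|A|`. -/
theorem result {Γ : Type*} [AddCommGroup Γ] {n : ℕ} (hn : 1 ≤ n) (S : Set (Fin n → ℤ))
    (hS : (∃ N : Fin n → ℕ, S = {z | ∀ i, |z i| ≤ (N i : ℤ)}) ∨
      ∃ (m : ℕ) (L : (Fin n → ℝ) →ₗ[ℝ] EuclideanSpace ℝ (Fin m)), Function.Injective L ∧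
        S = {z | ‖L (fun i => (z i : ℝ))‖ ≤ 1})
    (φ : (Fin n → ℤ) →+ Γ) (H₀ : AddSubgroup Γ) (hH₀ : Finite H₀)
    (A X : Finset Γ) (hA : A.Nonempty) (κ : ℝ) (hκ : 1 ≤ κ)
    (hP : (({g | ∃ z ∈ S, ∃ h ∈ H₀, g = φ z + h} : Set Γ).ncard : ℝ) ≤ κ * A.card)
    (hcov : ∀ a ∈ A, ∃ x ∈ X, ∃ z ∈ S, ∃ h ∈ H₀, a = x + (φ z + h)) :
    ∃ (d : ℕ) (B : Set (Fin d → ℝ)) (ψ : (Fin d → ℤ) →+ Γ) (H : AddSubgroup Γ) (T : Finset Γ),
      d ≤ n ∧
      Convex ℝ B ∧ IsCompact B ∧ (interior B).Nonempty ∧ (∀ x ∈ B, -x ∈ B) ∧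
      Finite H ∧
      {x : Fin d → ℤ | (fun i => (x i : ℝ)) ∈ B}.ncard * Nat.card H ≤ A.card ∧
      (T.card : ℝ) ≤ Real.exp (880 * n) * κ * X.card ∧
      ∀ a ∈ A, ∃ t ∈ T, ∃ x : Fin d → ℤ, (fun i => (x i : ℝ)) ∈ B ∧
        ∃ h ∈ H, a = t + ψ x + h := by
  classical
  obtain ⟨d, B, ψ, H, T, hd, hB, hH, hvol, hT, hcovT⟩ :=
    T9h11.RM.nonproper hn S hS φ H₀ hH₀ (a := A.card) hA.card_pos hκ hP
  refine ⟨d, B, ψ, H, (X ×ˢ T).image (fun p => p.1 + p.2), hd, hB.1, hB.2.1, hB.2.2.1, hB.2.2.2,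
    hH, hvol, ?_, ?_⟩
  · have h1 : (((X ×ˢ T).image (fun p => p.1 + p.2)).card : ℝ) ≤ X.card * T.card := by
      have h2 : ((X ×ˢ T).image (fun p => p.1 + p.2)).card ≤ X.card * T.card := by
        refine Finset.card_image_le.trans ?_
        rw [Finset.card_product]
      exact_mod_cast h2
    calc (((X ×ˢ T).image (fun p => p.1 + p.2)).card : ℝ) ≤ X.card * T.card := h1
      _ ≤ X.card * (Real.exp (880 * n) * κ) := mul_le_mul_of_nonneg_left hT (Nat.cast_nonneg _)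
      _ = _ := by ring
  · intro a ha
    obtain ⟨x, hx, z, hz, h, hh, rfl⟩ := hcov a ha
    obtain ⟨t, ht, w, hw, h', hh', he⟩ := hcovT z hz h hh
    refine ⟨x + t, Finset.mem_image.2 ⟨(x, t), Finset.mem_product.2 ⟨hx, ht⟩, rfl⟩, w, hw, h', hh', ?_⟩
    rw [he]
    abel

end Pool.Agent.Results.MP_dd2a7c_co.NonproperProgressions
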