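import Pool.Agent.T9h11.RW14
import Pool.Agent.T9h11.RW16

set_option autoImplicit false

namespace Pool.Agent.Results.MP_dd2a7c_co.RandomWalks

open Finset
open scoped Classical Pointwise

universe u

/-- Centred convex coset progressions, as in the problem. -/
structure CCP (Γ : Type u) [AddCommGroup Γ] where
  /-- the dimension -/
  d : ℕ
  /-- the convex body -/
  B : Set (Fin d → ℝ)
  convex : Convex ℝ B
  compact : IsCompact B
  interior_nonempty : (interior B).Nonempty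
  symm : ∀ x ∈ B, -x ∈ B
  x₀ : Γ
  ψ : (Fin d → ℤ) →+ Γ
  /-- the finite subgroup -/
  H : AddSubgroup Γ
  finite : Finite H

/-- The volume: the number of integer points of the body times the order of the subgroup. -/
noncomputable def CCP.vol {Γ : Type u} [AddCommGroup Γ] (Q : CCP Γ) : ℕ :=
  {x : Fin Q.d → ℤ | (fun i => (x i : ℝ)) ∈ Q.B}.ncard * Nat.card Q.H

/-- The underlying set. -/
def CCP.carrier {Γ : Type u} [AddCommGroup Γ] (Q : CCP Γ) : Set Γ :=
  {y | ∃ x : Fin Q.d → ℤ, (fun i => (x i : ℝ)) ∈ Q.B ∧ ∃ h ∈ Q.H, y = Q.x₀ + Q.ψ x + h}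

/-- The density of the `k`-th convolution power of the measure
`∑ i, (r i / 2) (δ_{z i} + δ_{- z i})`. -/
noncomputable def jump {Γ : Type u} [AddCommGroup Γ] {m : ℕ} (z : Fin m → Γ) (r : Fin m → ℝ) :
    ℕ → Γ → ℝ
  | 0, y => if y = 0 then 1 else 0
  | k + 1, y => ∑ i, r i / 2 * (jump z r k (y - z i) + jump z r k (y + z i))

/-- `walk z r y` is the probability that the continuous-time random walk started at `0`, which
jumps by `z i` and by `- z i` at rate `r i / 2` each, is at `y` at time `1`. At time `t` this is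
`walk z (fun i => t * r i) y`. -/
noncomputable def walk {Γ : Type u} [AddCommGroup Γ] {m : ℕ} (z : Fin m → Γ) (r : Fin m → ℝ)
    (y : Γ) : ℝ :=
  ∑' k : ℕ, Real.exp (-∑ i, r i) / (k.factorial : ℝ) * jump z r k y

theorem jump_eq {Γ : Type u} [AddCommGroup Γ] {m : ℕ} (z : Fin m → Γ) (r : Fin m → ℝ) (k : ℕ)
    (y : Γ) : jump z r k y = T9h11.RW.jump z r k y := by
  induction k generalizing y with
  | zero => rw [jump, T9h11.RW.jump]
  | succ k ih =>
    rw [jump, T9h11.RW.jump]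
    exact Finset.sum_congr rfl fun i _ => by rw [ih, ih]

theorem walk_eq {Γ : Type u} [AddCommGroup Γ] {m : ℕ} (z : Fin m → Γ) (r : Fin m → ℝ) :
    walk z r = T9h11.RW.walk z r := by
  funext y
  unfold walk T9h11.RW.walk
  simp_rw [jump_eq]

/-- the progression built from the data of the library theorems -/
def mk {Γ : Type u} [AddCommGroup Γ] {d : ℕ} {B : Set (Fin d → ℝ)}
    (hB : Pool.Agent.Y806.DF.Body B) (ψ : (Fin d → ℤ) →+ Γ) (H : AddSubgroup Γ) (hH : Finite H)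
    (g : Γ) : CCP Γ :=
  ⟨d, B, hB.1, hB.2.1, hB.2.2.1, hB.2.2.2, g, ψ, H, hH⟩

/-- **The polynomial Freiman-Ruzsa conjecture (Q1) for symmetric random walks.** There is an
absolute constant `C` such that the following hold for every abelian group `Γ` and every symmetric
continuous-time random walk `X` on `Γ` (with finitely many jumps `± z i`, of arbitrary rates).

1. Let `K ≥ 1` and `P(X₂ = 0) ≤ K P(X₄ = 0)` (for the law `p` of `X₁` this says
`‖p‖₂² ≤ K ‖p * p‖₂²`). Then there is a centred convex coset progression `Q` of dimension at most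
`C log (2 K)` and volume at most `1 / P(X₂ = 0)` such that `P(X₁ ∈ Q) ≥ (2 K) ^ (- C)`.

2. Let `L ≥ 1` and let `σ` be any probability measure with a finite support `S`, such that
`P(X₁ = 0) ≤ L ‖σ‖₂²` and `‖σ‖₂² ≤ L P(Y' - Y = X₁)` for `Y`, `Y'` of law `σ`, all independent. Then
there is a centred convex coset progression `Q` of dimension at most `C log (2 L)` and volume at
most `1 / ‖σ‖₂²` such that `σ(Q) ≥ (2 L) ^ (- C)`.

3. Let `A` be a finite nonempty set with `|A + A| ≤ K |A|`, and assume that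
`P(X₁ = 0) ≤ L / |A|` and `∑_{a, b ∈ A} P(X₁ = b - a) ≥ |A| / L`. Then `A` is covered by
`K (2 L) ^ C` translates of a centred convex coset progression of dimension at most `C log (2 L)` and
volume at most `|A|`. -/
theorem result : ∃ C : ℝ,
    (∀ (Γ : Type u) [AddCommGroup Γ] (m : ℕ) (z : Fin m → Γ) (r : Fin m → ℝ), (∀ i, 0 ≤ r i) →
      ∀ K : ℝ, 1 ≤ K → walk z (fun i => 2 * r i) 0 ≤ K * walk z (fun i => 4 * r i) 0 →
      ∃ Q : CCP Γ, (Q.d : ℝ) ≤ C * Real.log (2 * K) ∧ Q.vol * walk z (fun i => 2 * r i) 0 ≤ 1 ∧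
        (2 * K) ^ (-C) ≤ ∑' y : Q.carrier, walk z r y) ∧
    (∀ (Γ : Type u) [AddCommGroup Γ] (m : ℕ) (z : Fin m → Γ) (r : Fin m → ℝ), (∀ i, 0 ≤ r i) →
      ∀ (S : Finset Γ) (σ : Γ → ℝ), (∀ y ∈ S, 0 ≤ σ y) → ∑ y ∈ S, σ y = 1 → ∀ L : ℝ, 1 ≤ L →
      walk z r 0 ≤ L * ∑ y ∈ S, σ y ^ 2 →
      ∑ y ∈ S, σ y ^ 2 ≤ L * ∑ y ∈ S, ∑ y' ∈ S, σ y * σ y' * walk z r (y' - y) →
      ∃ Q : CCP Γ, (Q.d : ℝ) ≤ C * Real.log (2 * L) ∧ Q.vol * ∑ y ∈ S, σ y ^ 2 ≤ 1 ∧
        (2 * L) ^ (-C) ≤ ∑ y ∈ S.filter (· ∈ Q.carrier), σ y) ∧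
    (∀ (Γ : Type u) [AddCommGroup Γ] (m : ℕ) (z : Fin m → Γ) (r : Fin m → ℝ), (∀ i, 0 ≤ r i) →
      ∀ (A : Finset Γ) (K L : ℝ), A.Nonempty → 1 ≤ L → ((A + A).card : ℝ) ≤ K * A.card →
      walk z r 0 ≤ L / A.card → A.card / L ≤ ∑ a ∈ A, ∑ b ∈ A, walk z r (b - a) →
      ∃ (Q : CCP Γ) (T : Finset Γ), (Q.d : ℝ) ≤ C * Real.log (2 * L) ∧ Q.vol ≤ A.card ∧
        (T.card : ℝ) ≤ K * (2 * L) ^ C ∧ ∀ a ∈ A, ∃ t ∈ T, ∃ y ∈ Q.carrier, a = t + y) := by
  have hlog : ∀ K : ℝ, 1 ≤ K → 0 ≤ Real.log (2 * K) := fun K hK =>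
    Real.log_nonneg (by linarith)
  refine ⟨10 ^ 24, ?_, ?_, ?_⟩
  · intro Γ _ m z r hr K hK h
    rw [walk_eq, walk_eq] at h
    obtain ⟨n, B, ψ, H, g, hn, hB, hH, hvol, hmass⟩ := T9h11.RW.walk_form z hr hK h
    have hl := hlog K hK
    refine ⟨mk hB ψ H hH g, ?_, ?_, ?_⟩
    · show (n : ℝ) ≤ _
      linarith
    · rw [walk_eq]
      exact hvol
    · rw [walk_eq]
      refine le_trans ?_ (hmass.trans (le_of_eq ?_))
      · rw [Real.rpow_def_of_pos (by linarith)]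
        refine Real.exp_le_exp.2 ?_
        linarith
      · rfl
  · intro Γ _ m z r hr S σ hσ0 hσ1 L hL h1 h2
    rw [walk_eq] at h1
    simp_rw [walk_eq] at h2
    obtain ⟨n, B, ψ, H, g, hn, hB, hH, hvol, hmass⟩ := T9h11.RW.law_form z hr hσ0 hσ1 hL h1 h2
    have hl := hlog L hL
    refine ⟨mk hB ψ H hH g, ?_, ?_, ?_⟩
    · show (n : ℝ) ≤ _
      linarith
    · exact hvol
    · refine le_trans ?_ (hmass.trans (le_of_eq ?_))
      · rw [Real.rpow_def_of_pos (by linarith)]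
        refine Real.exp_le_exp.2 ?_
        linarith
      · rfl
  · intro Γ _ m z r hr A K L hA hL hK h1 h2
    rw [walk_eq] at h1
    simp_rw [walk_eq] at h2
    obtain ⟨n, B, ψ, H, T, hn, hB, hH, hvol, hT, hcov⟩ := T9h11.RW.set_form z hr hA hL hK h1 h2
    have hl := hlog L hL
    refine ⟨mk hB ψ H hH 0, T, ?_, ?_, ?_, ?_⟩
    · show (n : ℝ) ≤ _
      linarith
    · exact hvol
    · refine hT.trans (le_of_eq ?_)
      rw [Real.rpow_def_of_pos (by linarith), mul_comm (Real.log (2 * L))]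
    · intro a ha
      obtain ⟨t, ht, w, hw, h, hh, he⟩ := hcov a ha
      refine ⟨t, ht, 0 + ψ w + h, ⟨w, hw, h, hh, rfl⟩, ?_⟩
      rw [he]
      abel

end Pool.Agent.Results.MP_dd2a7c_co.RandomWalks
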