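import Pool.Agent.T9h99.Sym2.Half
set_option autoImplicit false

/-! Polynomial Freiman-Ruzsa for sets over an arbitrary abelian group which are nearly invariant
under most permutations of some of the coordinates. -/

open scoped Classical Pointwise

namespace Pool.Agent.Results.MP_dd2a7c_co.SymmetricSets

open Pool.Agent.T9h99.Sym Pool.Agent.T9h99.Sym2 Pool.Agent.TH414.Dil

theorem result {M W : Type*} [AddCommGroup M] [AddCommGroup W] (n : ℕ)
    (A : Finset ((Fin n → M) × W)) (hA : A.Nonempty) (K : ℝ)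
    (hK : Fintype.card (Equiv.Perm (Fin n)) < 2 * {σ : Equiv.Perm (Fin n) |
      ((A + A.image fun a => ((fun i => a.1 (σ i), a.2) : (Fin n → M) × W)).card : ℝ) ≤
        K * A.card}.ncard)
    (hn : 2800000000 * Real.log (2 * K) ≤ n) :
    ∃ N : AddSubgroup M, Finite N ∧
      ({x : (Fin n → M) × W | ∃ a ∈ A, x.2 = a.2 ∧ (∀ i, x.1 i - a.1 i ∈ N) ∧
        ∑ i, (x.1 i - a.1 i) = 0}.ncard : ℝ) ≤ (2 * K) ^ 28004 * A.card ∧
      (∃ T : Finset ((Fin n → M) × W), (T.card : ℝ) ≤ (2 * K) ^ 35104 ∧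
        ∀ a ∈ A, ∃ t ∈ T, ∀ i j, (a.1 i - t.1 i) - (a.1 j - t.1 j) ∈ N) ∧
      ∀ L : ℝ, {z : M | n • z = 0}.Finite →
        (A.image fun a => (∑ i, a.1 i, a.2)).card * ({z : M | n • z = 0}.ncard : ℝ) ≤ L →
        (∃ T : Finset ((Fin n → M) × W), (T.card : ℝ) ≤ (2 * K) ^ 35104 * L ∧
          ∀ a ∈ A, ∃ t ∈ T, a.2 = t.2 ∧ (∀ i, a.1 i - t.1 i ∈ N) ∧
            ∑ i, (a.1 i - t.1 i) = 0) ∧
        ∃ (B : Set (Fin 1 → ℝ)) (ψ : (Fin 1 → ℤ) →+ (Fin n → M) × W)
          (H : AddSubgroup ((Fin n → M) × W)) (T : Finset ((Fin n → M) × W)),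
          Convex ℝ B ∧ IsCompact B ∧ (interior B).Nonempty ∧ (∀ x ∈ B, -x ∈ B) ∧ Finite H ∧
          {x : Fin 1 → ℤ | (fun i => (x i : ℝ)) ∈ B}.ncard * Nat.card H ≤ A.card ∧
          (T.card : ℝ) ≤ 8 * (2 * K) ^ 70208 * L ^ 2 ∧
          ∀ a ∈ A, ∃ t ∈ T, ∃ x : Fin 1 → ℤ, (fun i => (x i : ℝ)) ∈ B ∧
            ∃ h ∈ H, a = t + ψ x + h := by
  have hpos : (0 : ℝ) < A.card := by exact_mod_cast hA.card_pos
  obtain ⟨hK1, hn0, N, hN, hN1, T, hT1, hT2⟩ := near_half hA (K := K) (by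
    have e : {σ : Equiv.Perm (Fin n) |
        ((A + A.image fun a => ((fun i => a.1 (σ i), a.2) : (Fin n → M) × W)).card : ℝ) ≤
          K * A.card} = ((Finset.univ.filter (fun σ : Equiv.Perm (Fin n) =>
            ((A + A.image (act2 σ)).card : ℝ) ≤ K * A.card) :
              Finset (Equiv.Perm (Fin n))) : Set (Equiv.Perm (Fin n))) := by
      ext σ
      rw [Finset.mem_coe, Finset.mem_filter]
      exact ⟨fun h => ⟨Finset.mem_univ _, h⟩, fun h => h.2⟩
    rw [e, Set.ncard_coe_finset] at hK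
    exact hK) hn
  have hset : {x : (Fin n → M) × W | ∃ a ∈ A, x.2 = a.2 ∧ (∀ i, x.1 i - a.1 i ∈ N) ∧
      ∑ i, (x.1 i - a.1 i) = 0} =
      (A : Set ((Fin n → M) × W)) + (zw N n W : Set ((Fin n → M) × W)) := by
    ext x
    constructor
    · rintro ⟨a, ha, h0, h1, h2⟩
      refine Set.mem_add.2 ⟨a, ha, x - a, mem_zw.2 ⟨h1, h2, ?_⟩, by abel⟩
      rw [Prod.snd_sub, h0, sub_self]
    · intro hx
      obtain ⟨a, ha, z, hz, rfl⟩ := Set.mem_add.1 hx
      obtain ⟨g1, g2, g3⟩ := mem_zw.1 hz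
      refine ⟨a, ha, ?_, fun i => ?_, ?_⟩
      · rw [Prod.snd_add, g3, add_zero]
      · rw [Prod.fst_add, Pi.add_apply, add_sub_cancel_left]
        exact g1 i
      · simp only [Prod.fst_add, Pi.add_apply, add_sub_cancel_left]
        exact g2
  refine ⟨N, hN, ?_, ⟨T, hT1, hT2⟩, ?_⟩
  · rw [hset]
    exact hN1
  · intro L hfin hL
    -- `L` is at least one
    have hL1 : 1 ≤ L := by
      have h1 : 1 ≤ (A.image fun a => (∑ i, a.1 i, a.2)).card := (hA.image _).card_pos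
      have h2 : 1 ≤ {z : M | n • z = 0}.ncard := by
        rw [Nat.succ_le_iff, Set.ncard_pos hfin]
        exact ⟨0, smul_zero n⟩
      have h3 : (1 : ℝ) ≤ (A.image fun a => (∑ i, a.1 i, a.2)).card := by exact_mod_cast h1
      have h4 : (1 : ℝ) ≤ {z : M | n • z = 0}.ncard := by exact_mod_cast h2
      nlinarith
    set κ : ℝ := (2 * K) ^ 35104 * L with hκ
    have hKp : 1 ≤ (2 * K) ^ 35104 := one_le_pow₀ (by linarith)
    have hκ1 : 1 ≤ κ := by
      rw [hκ]
      nlinarith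
    have hbar : ((bar (zw N n W) A).card : ℝ) ≤ κ := by
      have h1 := few_bar2 hn0 N hT2 hfin
      have h2 : ((bar (zw N n W) A).card : ℝ) ≤
          T.card * ((A.image (fun a => (∑ i, a.1 i, a.2))).card *
            {z : M | n • z = 0}.ncard) := by
        exact_mod_cast h1
      refine h2.trans ?_
      rw [hκ]
      exact mul_le_mul hT1 hL (by positivity) (by positivity)
    have hzfin : Finite (zw N n W) := (zw_finite hN).to_subtype
    have hcard : (Nat.card (zw N n W) : ℝ) ≤ 2 * κ * A.card := by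
      have h1 : Nat.card (zw N n W) ≤
          ((A : Set ((Fin n → M) × W)) + (zw N n W : Set ((Fin n → M) × W))).ncard := by
        obtain ⟨a₀, ha₀⟩ := hA
        have hfin2 : ((A : Set ((Fin n → M) × W)) +
            (zw N n W : Set ((Fin n → M) × W))).Finite :=
          (Finset.finite_toSet A).add (zw_finite hN)
        have h2 : (fun z => a₀ + z) '' (zw N n W : Set ((Fin n → M) × W)) ⊆
            (A : Set ((Fin n → M) × W)) + (zw N n W : Set ((Fin n → M) × W)) := by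
          rintro x ⟨z, hz, rfl⟩
          exact Set.add_mem_add ha₀ hz
        have h3 := Set.ncard_le_ncard h2 hfin2
        rw [Set.ncard_image_of_injective _ (add_right_injective a₀)] at h3
        exact h3
      have h2 : (Nat.card (zw N n W) : ℝ) ≤
          (((A : Set ((Fin n → M) × W)) +
            (zw N n W : Set ((Fin n → M) × W))).ncard : ℕ) := by exact_mod_cast h1
      refine (h2.trans hN1).trans (mul_le_mul_of_nonneg_right ?_ hpos.le)
      have h3 : (2 * K) ^ 28004 ≤ (2 * K) ^ 35104 := pow_le_pow_right₀ (by linarith) (by norm_num)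
      rw [hκ]
      nlinarith
    refine ⟨?_, ?_⟩
    · obtain ⟨X, hX, hX2⟩ := reps (zw N n W) A
      refine ⟨X, by rw [hX]; exact hbar, fun a ha => ?_⟩
      obtain ⟨x, hx, hax⟩ := hX2 a ha
      obtain ⟨g1, g2, g3⟩ := mem_zw.1 hax
      exact ⟨x, hx, sub_eq_zero.1 g3, g1, g2⟩
    · obtain ⟨B, ψ, H, T', r1, r2, r3, r4, r5, r6, r7, r8⟩ :=
        q1_form A hA κ hκ1 (zw N n W) hbar hcard
      refine ⟨B, ψ, H, T', r1, r2, r3, r4, r5, r6, r7.trans (le_of_eq ?_), r8⟩
      rw [hκ, mul_pow, ← pow_mul]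
      ring

end Pool.Agent.Results.MP_dd2a7c_co.SymmetricSets
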